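import Pool.Agent.P8H60.BC.Stm2
import Pool.Agent.P8H7.BC.GL

set_option autoImplicit false

/-!
# BC/FC and BC/LG
-/

open MeasureTheory ProbabilityTheory

namespace Pool.Agent.P8H45.BC

open Pool.Agent.P8H60.BC

theorem t_FC : S_FC := by
  classical
  intro K δ q
  have e1 : FL K δ q = ⋃ J ∈ (Finset.univ : Finset (Finset (Fin K))).filter
      (fun J => (J.card : ℝ) ≤ q), ⋂ i ∈ (Finset.univ \ J : Finset (Fin K)),
        {z : Fin (K + K) → ℝ |
          δ ≤ |z (Fin.castAdd K i) - (∑ l : Fin K, z (Fin.natAdd K l)) / K|} := by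
    ext z
    simp only [FL, Set.mem_ofPred_eq, Set.mem_iUnion, Set.mem_iInter, Finset.mem_filter,
      Finset.mem_univ, true_and, exists_prop, Finset.mem_sdiff]
    constructor
    · intro h
      refine ⟨Finset.univ.filter fun i =>
        |z (Fin.castAdd K i) - (∑ l : Fin K, z (Fin.natAdd K l)) / K| < δ, ?_, fun i hi => ?_⟩
      · have e2 : ({i : Fin K | |z (Fin.castAdd K i) - (∑ l : Fin K, z (Fin.natAdd K l)) / K| < δ} :
            Set (Fin K)) = ((Finset.univ.filter fun i =>
            |z (Fin.castAdd K i) - (∑ l : Fin K, z (Fin.natAdd K l)) / K| < δ : Finset (Fin K)) :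
            Set (Fin K)) := by
          ext i
          simp
        rwa [e2, Set.ncard_coe_finset] at h
      · by_contra hcon
        exact hi (Finset.mem_filter.2 ⟨Finset.mem_univ _, not_le.1 hcon⟩)
    · rintro ⟨J, hJ, h⟩
      refine le_trans ?_ hJ
      rw [← Set.ncard_coe_finset]
      refine Nat.cast_le.2 (Set.ncard_le_ncard (fun i hi => ?_) (Set.toFinite _))
      by_contra hcon
      exact absurd (h i hcon) (not_le.2 hi)
  rw [e1]
  refine Set.Finite.isClosed_biUnion (Finset.finite_toSet _) fun J _ => ?_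
  refine isClosed_biInter fun i _ => ?_
  exact isClosed_le continuous_const (by fun_prop)

theorem t_LG : S_LGA := by
  intro hCH hAV δ ε η hδ hε hη
  obtain ⟨u, hu0, hu1, hu2⟩ : ∃ u : ℝ, 0 < u ∧ u ≤ δ / 6 ∧ u ≤ ε / 12 :=
    ⟨min (δ / 6) (ε / 12), lt_min (by linarith) (by linarith), min_le_left _ _, min_le_right _ _⟩
  obtain ⟨c, hc0, hc⟩ := hCH (ε / 4) (by linarith)
  obtain ⟨K₀, hK₀⟩ := exists_nat_gt (2 / (η * u ^ 2) + 1 / (c * η))
  refine ⟨δ - u, K₀ + 1, by linarith, by linarith, fun K hK => ?_⟩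
  have hK1 : (1 : ℝ) ≤ K := by
    have : 1 ≤ K := by omega
    exact_mod_cast this
  have hK0 : (0 : ℝ) < K := by linarith
  have hK2 : 2 / (η * u ^ 2) + 1 / (c * η) < K := by
    have : (K₀ : ℝ) ≤ K := by
      have : K₀ ≤ K := by omega
      exact_mod_cast this
    linarith
  obtain ⟨t, ht⟩ : ∃ t : ℝ, t = δ - 2 * u := ⟨_, rfl⟩
  let T : Set ℝ := {z | t ≤ |z|}
  have hTm : MeasurableSet T := (isClosed_le continuous_const continuous_abs).measurableSet
  -- the mass of `T`
  have hT : (gaussianReal 0 1).real T ≤ 1 - pG δ + ε / 2 := by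
    have h1 : T ⊆ (Set.Icc (-(δ - 3 * u)) (δ - 3 * u))ᶜ := by
      intro z hz hz'
      have h2 : |z| ≤ δ - 3 * u := abs_le.2 hz'
      have h3 : t ≤ |z| := hz
      linarith
    have h2 : (gaussianReal 0 1).real T ≤
        (gaussianReal 0 1).real (Set.Icc (-(δ - 3 * u)) (δ - 3 * u))ᶜ := measureReal_mono h1
    have h3 : (gaussianReal 0 1).real (Set.Icc (-(δ - 3 * u)) (δ - 3 * u))ᶜ =
        1 - pG (δ - 3 * u) := by
      rw [probReal_compl_eq_one_sub measurableSet_Icc]
      rfl
    have h4 := Pool.Agent.P8H7.BC.G_lip (δ - 3 * u) (3 * u) (by linarith)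
    have h5 : δ - 3 * u + 3 * u = δ := by ring
    rw [h5, ← Pool.Agent.P8H7.BC.pG_eq _ hδ.le, ← Pool.Agent.P8H7.BC.pG_eq _ (by linarith)] at h4
    linarith
  let B : Fin (K + K) → Set ℝ := Fin.addCases (fun _ => T) (fun _ => ∅)
  have hB1 : ∀ i : Fin K, B (Fin.castAdd K i) = T := fun i => Fin.addCases_left i
  have hB2 : ∀ i : Fin K, B (Fin.natAdd K i) = ∅ := fun i => Fin.addCases_right i
  have hBm : ∀ i, MeasurableSet (B i) := by
    intro i
    refine Fin.addCases (fun i => ?_) (fun i => ?_) i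
    · rw [hB1]
      exact hTm
    · rw [hB2]
      exact MeasurableSet.empty
  have hBs : ∑ i, (gaussianReal 0 1).real (B i) = K * (gaussianReal 0 1).real T := by
    rw [Fin.sum_univ_add]
    simp only [hB1, hB2, measureReal_empty, Finset.sum_const, Finset.card_univ, Fintype.card_fin,
      nsmul_eq_mul, mul_zero, add_zero]
  have k1 := hc (K + K) B hBm
  let S : Finset (Fin (K + K)) := Finset.univ.map (Fin.natAddEmb K)
  have hS : (S.card : ℝ) = K := by
    rw [Finset.card_map, Finset.card_univ, Fintype.card_fin]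
  have hSs : ∀ z : Fin (K + K) → ℝ, ∑ i ∈ S, z i = ∑ l : Fin K, z (Fin.natAdd K l) := by
    intro z
    rw [Finset.sum_map]
    rfl
  have k2 := hAV (K + K) S (u * K) (by positivity)
  -- the inclusion
  have hsub : FL K (δ - u) ((pG δ - ε) * K) ⊆
      {z | u * K ≤ |∑ i ∈ S, z i|} ∪ {z | (∑ i, (gaussianReal 0 1).real (B i)) +
        ε / 4 * ((K + K : ℕ) : ℝ) ≤ (({i | z i ∈ B i} : Set (Fin (K + K))).ncard : ℝ)} := by
    intro z hz
    by_cases h1 : u * K ≤ |∑ i ∈ S, z i|
    · exact Or.inl h1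
    · right
      rw [hSs] at h1
      obtain ⟨m, hm⟩ : ∃ m : ℝ, m = (∑ l : Fin K, z (Fin.natAdd K l)) / K := ⟨_, rfl⟩
      have h2 : |m| < u := by
        rw [hm, abs_div, abs_of_pos hK0, div_lt_iff₀ hK0]
        exact not_le.1 h1
      have h3 : (({i : Fin K | |z (Fin.castAdd K i) - m| < δ - u} : Set (Fin K)).ncard : ℝ) ≤
          (pG δ - ε) * K := by
        rw [hm]
        exact hz
      obtain ⟨A, hA⟩ : ∃ A : Set (Fin K), A = {i | |z (Fin.castAdd K i)| < t} := ⟨_, rfl⟩
      have h4 : A.ncard ≤ ({i : Fin K | |z (Fin.castAdd K i) - m| < δ - u} : Set (Fin K)).ncard := by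
        refine Set.ncard_le_ncard (fun i hi => ?_) (Set.toFinite _)
        rw [hA] at hi
        have h5 : |z (Fin.castAdd K i)| < t := hi
        have h6 := abs_sub (z (Fin.castAdd K i)) m
        change |z (Fin.castAdd K i) - m| < δ - u
        linarith
      have h5 : A.ncard + Aᶜ.ncard = K := by
        rw [Set.ncard_add_ncard_compl, Nat.card_eq_fintype_card, Fintype.card_fin]
      have h6 : Aᶜ.ncard ≤ ({i | z i ∈ B i} : Set (Fin (K + K))).ncard := by
        rw [← Set.ncard_image_of_injective Aᶜ (Fin.castAdd_injective K K)]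
        refine Set.ncard_le_ncard ?_ (Set.toFinite _)
        rintro _ ⟨i, hi, rfl⟩
        change z (Fin.castAdd K i) ∈ B (Fin.castAdd K i)
        rw [hB1]
        rw [hA] at hi
        have h7 : ¬ |z (Fin.castAdd K i)| < t := hi
        exact not_lt.1 h7
      have h4' : (A.ncard : ℝ) ≤ (pG δ - ε) * K := (Nat.cast_le.2 h4).trans h3
      have h5' : (A.ncard : ℝ) + Aᶜ.ncard = K := by exact_mod_cast h5
      have h6' : (Aᶜ.ncard : ℝ) ≤ (({i | z i ∈ B i} : Set (Fin (K + K))).ncard : ℝ) :=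
        Nat.cast_le.2 h6
      change (∑ i, (gaussianReal 0 1).real (B i)) +
        ε / 4 * ((K + K : ℕ) : ℝ) ≤ (({i | z i ∈ B i} : Set (Fin (K + K))).ncard : ℝ)
      rw [hBs]
      push_cast
      have h7 := mul_le_mul_of_nonneg_left hT hK0.le
      nlinarith
  have k3 := (measureReal_mono (μ := Measure.pi fun _ : Fin (K + K) => gaussianReal 0 1)
    hsub).trans (measureReal_union_le _ _)
  have k4 : (S.card : ℝ) / (u * K) ^ 2 ≤ η / 2 := by
    rw [hS, div_le_iff₀ (by positivity)]
    have h1 : 2 / (η * u ^ 2) ≤ K := by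
      have : 0 < 1 / (c * η) := by positivity
      linarith
    rw [div_le_iff₀ (by positivity)] at h1
    have h2 := mul_le_mul_of_nonneg_right h1 hK0.le
    nlinarith
  have k5 : Real.exp (-(c * ((K + K : ℕ) : ℝ))) ≤ η / 2 := by
    have h1 : 1 / (c * η) ≤ K := by
      have : 0 < 2 / (η * u ^ 2) := by positivity
      linarith
    rw [div_le_iff₀ (by positivity)] at h1
    have h2 := Real.add_one_le_exp (c * ((K + K : ℕ) : ℝ))
    rw [Real.exp_neg]
    push_cast at h2 ⊢
    have h3 : 2 / η ≤ Real.exp (c * ((K : ℝ) + K)) := by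
      rw [div_le_iff₀ hη]
      have h4 := mul_le_mul_of_nonneg_right h2 hη.le
      nlinarith
    have h4 := inv_anti₀ (by positivity) h3
    refine h4.trans (le_of_eq ?_)
    rw [inv_div]
  linarith

end Pool.Agent.P8H45.BC
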